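import Mathlib

set_option autoImplicit false

/-! Cells: half-open triangles attached to the edges of a drawing. -/

namespace Pool.Agent.Wood

/-- The half-open triangle with vertices `(α, a)`, `(β, b)` and `(q, (a + b) / 2)`: the side from
`(α, a)` to `(β, b)` belongs to it, its two ends and the two other sides do not. -/
def Cell (α a β b q x t : ℝ) : Prop :=
  ∃ s : ℝ, 0 < s ∧ s < 1 ∧ t = a + s * (b - a) ∧ α + (β - α) * s ≤ x ∧
    x < α + 2 * (q - α) * s ∧ x < β + 2 * (q - β) * (1 - s)

variable {α a β b q x t y m ℓ : ℝ}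

lemma Cell.symm (h : Cell α a β b q x t) : Cell β b α a q x t := by
  obtain ⟨s, h0, h1, h2, h3, h4, h5⟩ := h
  refine ⟨1 - s, by linarith, by linarith, by rw [h2]; ring, by linarith, by linarith, ?_⟩
  have e : 1 - (1 - s) = s := by ring
  rw [e]
  exact h4

lemma Cell.mono {q' : ℝ} (hq : q ≤ q') (h : Cell α a β b q x t) : Cell α a β b q' x t := by
  obtain ⟨s, h0, h1, h2, h3, h4, h5⟩ := h
  refine ⟨s, h0, h1, h2, h3, ?_, ?_⟩
  · nlinarith
  · nlinarith

/-- The cell of a new edge lies in the cell of its parent edge. -/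
lemma Cell.sub {q' : ℝ} (hm : 2 * m = a + b) (hy : α + β ≤ 2 * y) (hq : y + 2 * ℓ ≤ q)
    (hℓ : 0 < ℓ) (hq' : 2 * q' ≤ α + y + 2 * ℓ) (h : Cell α a y m q' x t) :
    Cell α a β b q x t := by
  obtain ⟨s, h0, h1, h2, h3, h4, h5⟩ := h
  have e1 : x < α + (q - α) * s := by nlinarith
  refine ⟨s / 2, by linarith, by linarith, ?_, ?_, ?_, ?_⟩
  · have : m = (a + b) / 2 := by linarith
    rw [h2, this]; ring
  · nlinarith
  · nlinarith
  · have e2 : 0 ≤ (1 - s) * (2 * q - α - β) := mul_nonneg (by linarith) (by linarith)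
    nlinarith

/-- The remaining cell of an edge and the cell of a new edge are disjoint. -/
lemma Cell.disj_old_new {q' : ℝ} (hm : 2 * m = a + b) (hab : a ≠ b) (hy : q ≤ y)
    (h : Cell α a β b q x t) (h' : Cell α a y m q' x t) : False := by
  obtain ⟨s, h0, h1, h2, h3, h4, h5⟩ := h
  obtain ⟨s', h0', h1', h2', h3', h4', h5'⟩ := h'
  have e1 : s = s' / 2 := by
    have e2 : (s - s' / 2) * (b - a) = 0 := by
      have : m = (a + b) / 2 := by linarith
      rw [this] at h2'
      linear_combination h2' - h2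
    rcases mul_eq_zero.1 e2 with e | e
    · linarith
    · exact absurd (by linarith) hab
  subst e1
  nlinarith

/-- The cells of two new edges with a common old end. -/
lemma Cell.lt_of_new_new {y' q' q'' : ℝ} (ham : a ≠ m) (hq'' : 2 * q'' ≤ α + y' + 2 * ℓ)
    (h : Cell α a y m q' x t) (h' : Cell α a y' m q'' x t) : y < y' + 2 * ℓ := by
  obtain ⟨s, h0, h1, h2, h3, h4, h5⟩ := h
  obtain ⟨s', h0', h1', h2', h3', h4', h5'⟩ := h'
  have e1 : s = s' := by
    have e2 : (s - s') * (m - a) = 0 := by linear_combination h2' - h2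
    rcases mul_eq_zero.1 e2 with e | e
    · linarith
    · exact absurd (by linarith) ham
  subst e1
  have e3 : (y - α) * s < (y' + 2 * ℓ - α) * s := by nlinarith
  have e4 := lt_of_mul_lt_mul_right e3 h0.le
  linarith

/-- The cells of two new edges on the two sides of the middle row are disjoint. -/
lemma Cell.disj_new_new {y' q' q'' : ℝ} (hm : 2 * m = a + b) (hab : a ≠ b)
    (h : Cell α a y m q' x t) (h' : Cell β b y' m q'' x t) : False := by
  obtain ⟨s, h0, h1, h2, h3, h4, h5⟩ := h
  obtain ⟨s', h0', h1', h2', h3', h4', h5'⟩ := h'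
  have e2 : (2 - s - s') * (b - a) = 0 := by
    have : m = (a + b) / 2 := by linarith
    rw [this] at h2 h2'
    linear_combination 2 * (h2 - h2')
  rcases mul_eq_zero.1 e2 with e | e
  · linarith
  · exact hab (by linarith)

lemma Cell.of_new_vertex (hm : 2 * m = a + b) (hy : α + β ≤ 2 * y) (hq : y < q) :
    Cell α a β b q y m := by
  refine ⟨1 / 2, by norm_num, by norm_num, by linarith, by linarith, by linarith, by linarith⟩

lemma Cell.not_new_vertex (hm : 2 * m = a + b) (hab : a ≠ b) (hy : q ≤ y)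
    (h : Cell α a β b q y m) : False := by
  obtain ⟨s, h0, h1, h2, h3, h4, h5⟩ := h
  have e2 : (2 * s - 1) * (b - a) = 0 := by linear_combination hm - 2 * h2
  rcases mul_eq_zero.1 e2 with e | e
  · have : s = 1 / 2 := by linarith
    subst this
    linarith
  · exact hab (by linarith)

lemma Cell.not_new_vertex' {y' q' : ℝ} (ham : a ≠ m) (h : Cell α a y' m q' y m) : False := by
  obtain ⟨s, h0, h1, h2, h3, h4, h5⟩ := h
  have e2 : (1 - s) * (m - a) = 0 := by linear_combination h2
  rcases mul_eq_zero.1 e2 with e | e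
  · linarith
  · exact ham (by linarith)

end Pool.Agent.Wood
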