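import Mathlib
import Pool.Agent.MP_e7a50c_co.Cell

set_option autoImplicit false

/-! The drawing, built level by level. -/

namespace Pool.Agent.Wood

variable {n : ℕ}

/-- The data of a graph of the class. -/
structure Data (G : SimpleGraph (Fin n)) (k : ℕ) (p : ℕ → ℕ) (lev : Fin n → ℕ) : Prop where
  p_pos : ∀ j : ℕ, 1 ≤ j → j ≤ k → 0 < p j
  lev_le : ∀ v, lev v ≤ k
  three : {v : Fin n | lev v = 0}.ncard = 3
  adj0 : ∀ u v : Fin n, lev u = 0 → lev v = 0 → u ≠ v → G.Adj u v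
  same : ∀ u v : Fin n, G.Adj u v → lev u = lev v → lev u = 0
  parents : ∀ x : Fin n, 1 ≤ lev x → ∃ v w : Fin n, v ≠ w ∧ G.Adj v w ∧ lev v < lev x ∧
    lev w < lev x ∧ G.Adj x v ∧ G.Adj x w ∧ ∀ u : Fin n, G.Adj x u → lev u < lev x → u = v ∨ u = w
  count : ∀ j : ℕ, 1 ≤ j → j ≤ k → ∀ v w : Fin n, G.Adj v w → lev v < j → lev w < j →
    {x : Fin n | lev x = j ∧ G.Adj x v ∧ G.Adj x w}.ncard = p j

/-- The widths of the cells. -/
def ell (k : ℕ) (p : ℕ → ℕ) (j : ℕ) : ℤ := ∏ m ∈ Finset.Ioc j k, (1 + 2 * (p m : ℤ))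

lemma ell_succ (k : ℕ) (p : ℕ → ℕ) {j : ℕ} (h : j < k) :
    ell k p j = (1 + 2 * (p (j + 1) : ℤ)) * ell k p (j + 1) := by
  unfold ell
  have e : Finset.Ioc j k = insert (j + 1) (Finset.Ioc (j + 1) k) := by
    ext m
    simp only [Finset.mem_Ioc, Finset.mem_insert]
    omega
  rw [e, Finset.prod_insert (by simp)]

lemma ell_pos (k : ℕ) (p : ℕ → ℕ) (j : ℕ) : 1 ≤ ell k p j := by
  have h : 0 < ell k p j := by
    unfold ell
    apply Finset.prod_pos
    intro i _
    positivity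
  omega

/-- The cell of the edge `uv`. -/
def EC (X Y : Fin n → ℤ) (l : ℤ) (u v : Fin n) (x t : ℝ) : Prop :=
  Cell (X u) (Y u) (X v) (Y v) (((X u + X v) / 2 + l : ℤ) : ℝ) x t

lemma EC.symm {X Y : Fin n → ℤ} {l : ℤ} {u v : Fin n} {x t : ℝ} (h : EC X Y l u v x t) :
    EC X Y l v u x t := by
  unfold EC at *
  rw [add_comm (X v)]
  exact Cell.symm h

/-- The invariants of the partial drawing on the vertices of level at most `j`. -/
structure Inv (G : SimpleGraph (Fin n)) (k : ℕ) (lev : Fin n → ℕ) (l W : ℤ) (j : ℕ)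
    (X Y : Fin n → ℤ) : Prop where
  dvd : ∀ u v, G.Adj u v → lev u ≤ j → lev v ≤ j → (2 : ℤ) ^ (k - j) ∣ Y v - Y u
  ne : ∀ u v, G.Adj u v → lev u ≤ j → lev v ≤ j → Y u ≠ Y v
  disj : ∀ u v u' v', G.Adj u v → G.Adj u' v' → lev u ≤ j → lev v ≤ j → lev u' ≤ j →
    lev v' ≤ j → ∀ x t : ℝ, EC X Y l u v x t → EC X Y l u' v' x t →
      (u = u' ∧ v = v') ∨ (u = v' ∧ v = u')
  vert : ∀ z u v, lev z ≤ j → G.Adj u v → lev u ≤ j → lev v ≤ j → ¬ EC X Y l u v (X z) (Y z)
  inj : ∀ z z', lev z ≤ j → lev z' ≤ j → X z = X z' → Y z = Y z' → z = z'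
  bX : ∀ z, lev z ≤ j → 0 ≤ X z ∧ X z ≤ W
  bY : ∀ z, lev z ≤ j → 0 ≤ Y z ∧ Y z ≤ 2 ^ (k + 1)
  bq : ∀ u v, G.Adj u v → lev u ≤ j → lev v ≤ j → (X u + X v) / 2 + l ≤ W

section Step

variable {G : SimpleGraph (Fin n)} {k : ℕ} {p : ℕ → ℕ} {lev : Fin n → ℕ}

/-- Choice of the parents of a vertex of positive level. -/
lemma exists_parents (D : Data G k p lev) : ∃ pa pb : Fin n → Fin n, ∀ x, 1 ≤ lev x →
    pa x ≠ pb x ∧ G.Adj (pa x) (pb x) ∧ lev (pa x) < lev x ∧ lev (pb x) < lev x ∧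
    G.Adj x (pa x) ∧ G.Adj x (pb x) ∧
    ∀ u : Fin n, G.Adj x u → lev u < lev x → u = pa x ∨ u = pb x := by
  have h : ∀ x : Fin n, ∃ v w : Fin n, 1 ≤ lev x → v ≠ w ∧ G.Adj v w ∧ lev v < lev x ∧
    lev w < lev x ∧ G.Adj x v ∧ G.Adj x w ∧
    ∀ u : Fin n, G.Adj x u → lev u < lev x → u = v ∨ u = w := by
    intro x
    by_cases hx : 1 ≤ lev x
    · obtain ⟨v, w, h⟩ := D.parents x hx
      exact ⟨v, w, fun _ => h⟩
    · exact ⟨x, x, fun h => absurd h hx⟩
  choose pa pb h using h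
  exact ⟨pa, pb, h⟩

/-- Numbering of the siblings. -/
lemma exists_idx (D : Data G k p lev) {pa pb : Fin n → Fin n}
    (hp : ∀ x, 1 ≤ lev x → pa x ≠ pb x ∧ G.Adj (pa x) (pb x) ∧ lev (pa x) < lev x ∧
      lev (pb x) < lev x ∧ G.Adj x (pa x) ∧ G.Adj x (pb x) ∧
      ∀ u : Fin n, G.Adj x u → lev u < lev x → u = pa x ∨ u = pb x) :
    ∃ idx : Fin n → ℕ, (∀ x, 1 ≤ lev x → idx x < p (lev x)) ∧
      ∀ x y, 1 ≤ lev x → lev x = lev y → ((pa x = pa y ∧ pb x = pb y) ∨
        (pa x = pb y ∧ pb x = pa y)) → idx x = idx y → x = y := by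
  classical
  refine ⟨fun x => (Finset.univ.filter (fun y => lev y = lev x ∧ G.Adj y (pa x) ∧
    G.Adj y (pb x) ∧ y < x)).card, ?_, ?_⟩
  · intro x hx
    obtain ⟨h1, h2, h3, h4, h5, h6, h7⟩ := hp x hx
    rw [← D.count (lev x) hx (D.lev_le x) (pa x) (pb x) h2 h3 h4, Set.ncard_eq_toFinset_card']
    apply Finset.card_lt_card
    rw [Finset.ssubset_iff_of_subset]
    · refine ⟨x, ?_, ?_⟩
      · simp [h5, h6]
      · simp
    · intro y hy
      simp only [Finset.mem_filter, Finset.mem_univ, true_and] at hy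
      simp [hy]
  · -- injectivity
    have key : ∀ x y, 1 ≤ lev x → lev x = lev y → ((pa x = pa y ∧ pb x = pb y) ∨
        (pa x = pb y ∧ pb x = pa y)) → x < y →
        (Finset.univ.filter (fun z => lev z = lev x ∧ G.Adj z (pa x) ∧
          G.Adj z (pb x) ∧ z < x)).card < (Finset.univ.filter (fun z => lev z = lev y ∧
          G.Adj z (pa y) ∧ G.Adj z (pb y) ∧ z < y)).card := by
      intro x y hx hxy hpar hlt
      obtain ⟨h1, h2, h3, h4, h5, h6, h7⟩ := hp x hx
      apply Finset.card_lt_card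
      rw [Finset.ssubset_iff_of_subset]
      · refine ⟨x, ?_, ?_⟩
        · simp only [Finset.mem_filter, Finset.mem_univ, true_and]
          rcases hpar with ⟨e1, e2⟩ | ⟨e1, e2⟩
          · rw [← e1, ← e2]; exact ⟨hxy, h5, h6, hlt⟩
          · rw [← e1, ← e2]; exact ⟨hxy, h6, h5, hlt⟩
        · simp
      · intro z hz
        simp only [Finset.mem_filter, Finset.mem_univ, true_and] at hz ⊢
        obtain ⟨g1, g2, g3, g4⟩ := hz
        rcases hpar with ⟨e1, e2⟩ | ⟨e1, e2⟩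
        · rw [← e1, ← e2]; exact ⟨g1.trans hxy, g2, g3, g4.trans hlt⟩
        · rw [← e1, ← e2]; exact ⟨g1.trans hxy, g3, g2, g4.trans hlt⟩
    intro x y hx hxy hpar hidx
    rcases lt_trichotomy x y with h | h | h
    · exact absurd hidx (key x y hx hxy hpar h).ne
    · exact h
    · have hpar' : ((pa y = pa x ∧ pb y = pb x) ∨ (pa y = pb x ∧ pb y = pa x)) := by
        rcases hpar with ⟨e1, e2⟩ | ⟨e1, e2⟩
        · exact Or.inl ⟨e1.symm, e2.symm⟩
        · exact Or.inr ⟨e2.symm, e1.symm⟩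
      exact absurd hidx.symm (key y x (hxy ▸ hx) hxy.symm hpar' h).ne

/-- One step of the construction. -/
theorem step (D : Data G k p lev) {j : ℕ} (hj : j < k) {W : ℤ} {X Y : Fin n → ℤ}
    (I : Inv G k lev (ell k p j) W j X Y) :
    ∃ X' Y' : Fin n → ℤ, Inv G k lev (ell k p (j + 1)) W (j + 1) X' Y' := by
  classical
  obtain ⟨pa, pb, hp⟩ := exists_parents D
  obtain ⟨idx, hidx, hidx'⟩ := exists_idx D hp
  set l' : ℤ := ell k p (j + 1) with hl'
  set l : ℤ := ell k p j with hl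
  have hl1 : 1 ≤ l' := ell_pos k p (j + 1)
  have hll : l = (1 + 2 * (p (j + 1) : ℤ)) * l' := ell_succ k p hj
  set X' : Fin n → ℤ := fun z => if lev z = j + 1 then
    (X (pa z) + X (pb z)) / 2 + l' * (1 + 2 * (idx z : ℤ)) else X z with hX'
  set Y' : Fin n → ℤ := fun z => if lev z = j + 1 then (Y (pa z) + Y (pb z)) / 2 else Y z with hY'
  have oldX : ∀ z, lev z ≤ j → X' z = X z := by
    intro z hz
    simp only [hX']
    rw [if_neg (by omega)]
  have oldY : ∀ z, lev z ≤ j → Y' z = Y z := by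
    intro z hz
    simp only [hY']
    rw [if_neg (by omega)]
  -- children of an edge
  let Child : Fin n → Fin n → Fin n → Prop := fun v A P =>
    lev v = j + 1 ∧ ((pa v = A ∧ pb v = P) ∨ (pa v = P ∧ pb v = A))
  have child_symm : ∀ {v A P}, Child v A P → Child v P A := by
    rintro v A P ⟨h1, h2⟩
    exact ⟨h1, h2.symm⟩
  have childX : ∀ {v A P}, Child v A P → X' v = (X A + X P) / 2 + l' * (1 + 2 * (idx v : ℤ)) := by
    rintro v A P ⟨h1, h2 | h2⟩
    · simp only [hX']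
      rw [if_pos h1, h2.1, h2.2]
    · simp only [hX']
      rw [if_pos h1, h2.1, h2.2, add_comm (X P)]
  have even : ∀ {A P}, G.Adj A P → lev A ≤ j → lev P ≤ j → (2 : ℤ) ∣ Y P - Y A := by
    intro A P hAP hA hP
    refine (dvd_pow_self (2 : ℤ) (show k - j ≠ 0 by omega)).trans (I.dvd A P hAP hA hP)
  have childY : ∀ {v A P}, G.Adj A P → lev A ≤ j → lev P ≤ j → Child v A P →
      2 * Y' v = Y A + Y P := by
    rintro v A P hAP hA hP ⟨h1, h2⟩
    have h3 := even hAP hA hP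
    have h4 : Y' v = (Y A + Y P) / 2 := by
      rcases h2 with h2 | h2
      · simp only [hY']
        rw [if_pos h1, h2.1, h2.2]
      · simp only [hY']
        rw [if_pos h1, h2.1, h2.2, add_comm (Y P)]
    omega
  have childidx : ∀ {v A P}, Child v A P → l' ≤ l' * (1 + 2 * (idx v : ℤ)) ∧
      l' * (1 + 2 * (idx v : ℤ)) + 2 * l' ≤ l := by
    rintro v A P ⟨h1, h2⟩
    have h3 := hidx v (by omega)
    rw [h1] at h3
    have h4 : (idx v : ℤ) + 1 ≤ p (j + 1) := by exact_mod_cast h3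
    have h5 : (0 : ℤ) ≤ idx v := Int.natCast_nonneg _
    constructor
    · nlinarith
    · rw [hll]; nlinarith
  -- summary for children, in real numbers
  have hreal : ∀ {v A P}, G.Adj A P → lev A ≤ j → lev P ≤ j → Child v A P →
      (2 * (Y' v : ℝ) = Y A + Y P) ∧ ((X A : ℝ) + X P ≤ 2 * X' v) ∧
      ((X' v : ℝ) + 2 * l' ≤ (((X A + X P) / 2 + l : ℤ) : ℝ)) ∧
      ((((X A + X P) / 2 + l' : ℤ) : ℝ) ≤ X' v) ∧
      (2 * (((X A + X' v) / 2 + l' : ℤ) : ℝ) ≤ X A + X' v + 2 * l') ∧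
      (2 * (((X P + X' v) / 2 + l' : ℤ) : ℝ) ≤ X P + X' v + 2 * l') := by
    intro v A P hAP hA hP hc
    have e1 := childX hc
    have e2 := childY hAP hA hP hc
    obtain ⟨e3, e4⟩ := childidx hc
    refine ⟨by exact_mod_cast e2, ?_, ?_, ?_, ?_, ?_⟩
    · have : X A + X P ≤ 2 * X' v := by omega
      exact_mod_cast this
    · have : X' v + 2 * l' ≤ (X A + X P) / 2 + l := by omega
      exact_mod_cast this
    · have : (X A + X P) / 2 + l' ≤ X' v := by omega
      exact_mod_cast this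
    · have : 2 * ((X A + X' v) / 2 + l') ≤ X A + X' v + 2 * l' := by omega
      exact_mod_cast this
    · have : 2 * ((X P + X' v) / 2 + l') ≤ X P + X' v + 2 * l' := by omega
      exact_mod_cast this
  have hl'r : (0 : ℝ) < l' := by exact_mod_cast (show (0 : ℤ) < l' by omega)
  have hll' : l' ≤ l := by
    rw [hll]; nlinarith [show (0 : ℤ) ≤ p (j + 1) from Int.natCast_nonneg _]
  -- kinds of edges
  let Kind : Fin n → Fin n → Fin n → Fin n → Prop := fun A P u v =>
    u = A ∧ (v = P ∨ Child v A P)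
  have classify : ∀ u v, G.Adj u v → lev u ≤ j + 1 → lev v ≤ j + 1 →
      ∃ A P, G.Adj A P ∧ lev A ≤ j ∧ lev P ≤ j ∧ (Kind A P u v ∨ Kind A P v u) := by
    have key : ∀ u v, G.Adj u v → lev u ≤ j → lev v = j + 1 →
        ∃ A P, G.Adj A P ∧ lev A ≤ j ∧ lev P ≤ j ∧ Kind A P u v := by
      intro u v huv hu hv
      obtain ⟨h1, h2, h3, h4, h5, h6, h7⟩ := hp v (by omega)
      rcases h7 u huv.symm (by omega) with h | h
      · exact ⟨pa v, pb v, h2, by omega, by omega, h, Or.inr ⟨hv, Or.inl ⟨rfl, rfl⟩⟩⟩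
      · exact ⟨pb v, pa v, h2.symm, by omega, by omega, h, Or.inr ⟨hv, Or.inr ⟨rfl, rfl⟩⟩⟩
    intro u v huv hu hv
    rcases Nat.lt_or_ge j (lev v) with hv' | hv'
    · rcases Nat.lt_or_ge j (lev u) with hu' | hu'
      · have := D.same u v huv (by omega)
        omega
      · obtain ⟨A, P, h1, h2, h3, h4⟩ := key u v huv hu' (by omega)
        exact ⟨A, P, h1, h2, h3, Or.inl h4⟩
    · rcases Nat.lt_or_ge j (lev u) with hu' | hu'
      · obtain ⟨A, P, h1, h2, h3, h4⟩ := key v u huv.symm hv' (by omega)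
        exact ⟨A, P, h1, h2, h3, Or.inr h4⟩
      · exact ⟨u, v, huv, hu', hv', Or.inl ⟨rfl, Or.inl rfl⟩⟩
  -- the cell of an edge is contained in the cell of its parent
  have sub : ∀ {A P u v}, G.Adj A P → lev A ≤ j → lev P ≤ j → Kind A P u v → ∀ {x t : ℝ},
      EC X' Y' l' u v x t → EC X Y l A P x t := by
    rintro A P u v hAP hA hP ⟨rfl, rfl | hc⟩ x t h
    · unfold EC at *
      rw [oldX _ hA, oldY _ hA, oldX _ hP, oldY _ hP] at h
      refine Cell.mono ?_ h
      have : (X u + X v) / 2 + l' ≤ (X u + X v) / 2 + l := by omega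
      exact_mod_cast this
    · obtain ⟨e1, e2, e3, e4, e5, e6⟩ := hreal hAP hA hP hc
      unfold EC at *
      rw [oldX _ hA, oldY _ hA] at h
      exact Cell.sub e1 e2 e3 hl'r e5 h
  -- two edges with the same parent, same orientation
  have rowne : ∀ {A P}, G.Adj A P → lev A ≤ j → lev P ≤ j → (Y A : ℝ) ≠ Y P := by
    intro A P hAP hA hP h
    exact I.ne A P hAP hA hP (by exact_mod_cast h)
  have rowne' : ∀ {v A P}, G.Adj A P → lev A ≤ j → lev P ≤ j → Child v A P →
      (Y A : ℝ) ≠ Y' v := by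
    intro v A P hAP hA hP hc h
    obtain ⟨e1, -⟩ := hreal hAP hA hP hc
    apply rowne hAP hA hP
    linarith
  have kk : ∀ {A P u v u' v'}, G.Adj A P → lev A ≤ j → lev P ≤ j → Kind A P u v →
      Kind A P u' v' → ∀ {x t : ℝ}, EC X' Y' l' u v x t → EC X' Y' l' u' v' x t →
      u = u' ∧ v = v' := by
    rintro A P u v u' v' hAP hA hP ⟨rfl, rfl | hc⟩ ⟨rfl, rfl | hc'⟩ x t h h'
    · exact ⟨rfl, rfl⟩
    · exfalso
      obtain ⟨e1, e2, e3, e4, e5, e6⟩ := hreal hAP hA hP hc'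
      unfold EC at h h'
      rw [oldX _ hA, oldY _ hA] at h h'
      rw [oldX _ hP, oldY _ hP] at h
      exact Cell.disj_old_new e1 (rowne hAP hA hP) e4 h h'
    · exfalso
      obtain ⟨e1, e2, e3, e4, e5, e6⟩ := hreal hAP hA hP hc
      unfold EC at h h'
      rw [oldX _ hA, oldY _ hA] at h h'
      rw [oldX _ hP, oldY _ hP] at h'
      exact Cell.disj_old_new e1 (rowne hAP hA hP) e4 h' h
    · refine ⟨rfl, ?_⟩
      obtain ⟨e1, e2, e3, e4, e5, e6⟩ := hreal hAP hA hP hc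
      obtain ⟨e1', e2', e3', e4', e5', e6'⟩ := hreal hAP hA hP hc'
      have hrow : (Y' v : ℝ) = Y' v' := by linarith
      unfold EC at h h'
      rw [oldX _ hA, oldY _ hA] at h h'
      rw [hrow] at h
      have g1 := Cell.lt_of_new_new (rowne' hAP hA hP hc') e5' h h'
      have g2 := Cell.lt_of_new_new (rowne' hAP hA hP hc') e5 h' h
      have g1' : X' v < X' v' + 2 * l' := by exact_mod_cast g1
      have g2' : X' v' < X' v + 2 * l' := by exact_mod_cast g2
      rw [childX hc, childX hc'] at g1' g2'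
      have g3 : (idx v : ℤ) = idx v' := by nlinarith
      apply hidx' v v' (by have := hc.1; omega) (hc.1.trans hc'.1.symm) _ (by exact_mod_cast g3)
      rcases hc.2 with ⟨a1, a2⟩ | ⟨a1, a2⟩ <;> rcases hc'.2 with ⟨b1, b2⟩ | ⟨b1, b2⟩
      · exact Or.inl ⟨a1.trans b1.symm, a2.trans b2.symm⟩
      · exact Or.inr ⟨a1.trans b2.symm, a2.trans b1.symm⟩
      · exact Or.inr ⟨a1.trans b2.symm, a2.trans b1.symm⟩
      · exact Or.inl ⟨a1.trans b1.symm, a2.trans b2.symm⟩
  -- opposite orientation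
  have kk' : ∀ {A P u v u' v'}, G.Adj A P → lev A ≤ j → lev P ≤ j → Kind A P u v →
      Kind P A u' v' → ∀ {x t : ℝ}, EC X' Y' l' u v x t → EC X' Y' l' u' v' x t →
      u = v' ∧ v = u' := by
    rintro A P u v u' v' hAP hA hP ⟨rfl, rfl | hc⟩ ⟨rfl, rfl | hc'⟩ x t h h'
    · exact ⟨rfl, rfl⟩
    · exfalso
      obtain ⟨e1, e2, e3, e4, e5, e6⟩ := hreal hAP hA hP (child_symm hc')
      have h2 := EC.symm h
      unfold EC at h2 h'
      rw [oldX _ hP, oldY _ hP] at h2 h'
      rw [oldX _ hA, oldY _ hA] at h2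
      rw [add_comm (X u)] at e4
      exact Cell.disj_old_new (by rw [add_comm]; exact e1) (rowne hAP hA hP).symm e4 h2 h'
    · exfalso
      obtain ⟨e1, e2, e3, e4, e5, e6⟩ := hreal hAP hA hP hc
      have h2 := EC.symm h'
      unfold EC at h h2
      rw [oldX _ hA, oldY _ hA] at h h2
      rw [oldX _ hP, oldY _ hP] at h2
      exact Cell.disj_old_new e1 (rowne hAP hA hP) e4 h2 h
    · exfalso
      obtain ⟨e1, e2, e3, e4, e5, e6⟩ := hreal hAP hA hP hc
      obtain ⟨e1', e2', e3', e4', e5', e6'⟩ := hreal hAP hA hP (child_symm hc')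
      have hrow : (Y' v : ℝ) = Y' v' := by linarith
      unfold EC at h h'
      rw [oldX _ hA, oldY _ hA] at h
      rw [oldX _ hP, oldY _ hP, ← hrow] at h'
      exact Cell.disj_new_new e1 (rowne hAP hA hP) h h'
  -- disjointness of oriented edges
  have disjK : ∀ {A P u v A' P' u' v'}, G.Adj A P → lev A ≤ j → lev P ≤ j → Kind A P u v →
      G.Adj A' P' → lev A' ≤ j → lev P' ≤ j → Kind A' P' u' v' → ∀ {x t : ℝ},
      EC X' Y' l' u v x t → EC X' Y' l' u' v' x t → (u = u' ∧ v = v') ∨ (u = v' ∧ v = u') := by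
    intro A P u v A' P' u' v' hAP hA hP hk hAP' hA' hP' hk' x t h h'
    rcases I.disj A P A' P' hAP hAP' hA hP hA' hP' x t (sub hAP hA hP hk h)
      (sub hAP' hA' hP' hk' h') with ⟨rfl, rfl⟩ | ⟨rfl, rfl⟩
    · exact Or.inl (kk hAP hA hP hk hk' h h')
    · exact Or.inr (kk' hAP hA hP hk hk' h h')
  -- a new vertex lies in the old cell of its parent edge
  have newin : ∀ {z A P}, G.Adj A P → lev A ≤ j → lev P ≤ j → Child z A P →
      EC X Y l A P (X' z) (Y' z) := by
    intro z A P hAP hA hP hc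
    obtain ⟨e1, e2, e3, e4, e5, e6⟩ := hreal hAP hA hP hc
    unfold EC
    exact Cell.of_new_vertex e1 e2 (by linarith)
  -- the parent edge of a new vertex
  have parent : ∀ z, lev z = j + 1 → ∃ A P, G.Adj A P ∧ lev A ≤ j ∧ lev P ≤ j ∧ Child z A P := by
    intro z hz
    obtain ⟨h1, h2, h3, h4, h5, h6, h7⟩ := hp z (by omega)
    exact ⟨pa z, pb z, h2, by omega, by omega, hz, Or.inl ⟨rfl, rfl⟩⟩
  -- no vertex in a cell (oriented edges)
  have vertK : ∀ {A P u v z}, lev z ≤ j + 1 → G.Adj A P → lev A ≤ j → lev P ≤ j →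
      Kind A P u v → ¬ EC X' Y' l' u v (X' z) (Y' z) := by
    intro A P u v z hz hAP hA hP hk h
    have h1 := sub hAP hA hP hk h
    rcases Nat.lt_or_ge j (lev z) with hz' | hz'
    · obtain ⟨B, Q, hBQ, hB, hQ, hc⟩ := parent z (by omega)
      have h2 := newin hBQ hB hQ hc
      have hc2 : Child z A P := by
        rcases I.disj A P B Q hAP hBQ hA hP hB hQ _ _ h1 h2 with ⟨rfl, rfl⟩ | ⟨rfl, rfl⟩
        · exact hc
        · exact child_symm hc
      obtain ⟨e1, e2, e3, e4, e5, e6⟩ := hreal hAP hA hP hc2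
      obtain ⟨rfl, rfl | hc'⟩ := hk
      · unfold EC at h
        rw [oldX _ hA, oldY _ hA, oldX _ hP, oldY _ hP] at h
        exact Cell.not_new_vertex e1 (rowne hAP hA hP) e4 h
      · obtain ⟨e1', -⟩ := hreal hAP hA hP hc'
        have hrow : (Y' v : ℝ) = Y' z := by linarith
        unfold EC at h
        rw [oldX _ hA, oldY _ hA, hrow] at h
        exact Cell.not_new_vertex' (rowne' hAP hA hP hc2) h
    · rw [oldX _ hz', oldY _ hz'] at h1
      exact I.vert z A P hz' hAP hA hP h1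
  refine ⟨X', Y', ?_, ?_, ?_, ?_, ?_, ?_, ?_, ?_⟩
  · -- divisibility
    have key : ∀ {A P u v}, G.Adj A P → lev A ≤ j → lev P ≤ j → Kind A P u v →
        (2 : ℤ) ^ (k - (j + 1)) ∣ Y' v - Y' u := by
      rintro A P u v hAP hA hP ⟨rfl, rfl | hc⟩
      · rw [oldY _ hA, oldY _ hP]
        exact (pow_dvd_pow 2 (by omega)).trans (I.dvd u v hAP hA hP)
      · have e := childY hAP hA hP hc
        obtain ⟨c, hc⟩ := I.dvd u P hAP hA hP
        rw [show k - j = (k - (j + 1)) + 1 by omega, pow_succ] at hc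
        refine ⟨c, ?_⟩
        rw [oldY _ hA]
        linarith
    intro u v huv hu hv
    obtain ⟨A, P, hAP, hA, hP, h | h⟩ := classify u v huv hu hv
    · exact key hAP hA hP h
    · rw [← dvd_neg, neg_sub]
      exact key hAP hA hP h
  · -- rows differ
    have key : ∀ {A P u v}, G.Adj A P → lev A ≤ j → lev P ≤ j → Kind A P u v → Y' u ≠ Y' v := by
      rintro A P u v hAP hA hP ⟨rfl, rfl | hc⟩
      · rw [oldY _ hA, oldY _ hP]
        exact I.ne u v hAP hA hP
      · rw [oldY _ hA]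
        intro h
        exact rowne' hAP hA hP hc (by exact_mod_cast h)
    intro u v huv hu hv
    obtain ⟨A, P, hAP, hA, hP, h | h⟩ := classify u v huv hu hv
    · exact key hAP hA hP h
    · exact (key hAP hA hP h).symm
  · -- disjointness
    intro u v u' v' huv huv' hu hv hu' hv' x t h h'
    obtain ⟨A, P, hAP, hA, hP, hk | hk⟩ := classify u v huv hu hv <;>
    obtain ⟨A', P', hAP', hA', hP', hk' | hk'⟩ := classify u' v' huv' hu' hv'
    · exact disjK hAP hA hP hk hAP' hA' hP' hk' h h'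
    · rcases disjK hAP hA hP hk hAP' hA' hP' hk' h h'.symm with ⟨a, b⟩ | ⟨a, b⟩
      · exact Or.inr ⟨a, b⟩
      · exact Or.inl ⟨a, b⟩
    · rcases disjK hAP hA hP hk hAP' hA' hP' hk' h.symm h' with ⟨a, b⟩ | ⟨a, b⟩
      · exact Or.inr ⟨b, a⟩
      · exact Or.inl ⟨b, a⟩
    · rcases disjK hAP hA hP hk hAP' hA' hP' hk' h.symm h'.symm with ⟨a, b⟩ | ⟨a, b⟩
      · exact Or.inl ⟨b, a⟩
      · exact Or.inr ⟨b, a⟩
  · -- vertices
    intro z u v hz huv hu hv h
    obtain ⟨A, P, hAP, hA, hP, hk | hk⟩ := classify u v huv hu hv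
    · exact vertK hz hAP hA hP hk h
    · exact vertK hz hAP hA hP hk h.symm
  · -- injectivity
    intro z z' hz hz' hXe hYe
    rcases Nat.lt_or_ge j (lev z) with h | h <;> rcases Nat.lt_or_ge j (lev z') with h' | h'
    · obtain ⟨A, P, hAP, hA, hP, hc⟩ := parent z (by omega)
      obtain ⟨B, Q, hBQ, hB, hQ, hc'⟩ := parent z' (by omega)
      have h1 := newin hAP hA hP hc
      have h2 := newin hBQ hB hQ hc'
      rw [← hXe, ← hYe] at h2
      have hc2 : Child z' A P := by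
        rcases I.disj A P B Q hAP hBQ hA hP hB hQ _ _ h1 h2 with ⟨rfl, rfl⟩ | ⟨rfl, rfl⟩
        · exact hc'
        · exact child_symm hc'
      have g3 : (idx z : ℤ) = idx z' := by
        rw [childX hc, childX hc2] at hXe
        nlinarith
      apply hidx' z z' (by omega) (hc.1.trans hc'.1.symm) _ (by exact_mod_cast g3)
      rcases hc.2 with ⟨a1, a2⟩ | ⟨a1, a2⟩ <;> rcases hc2.2 with ⟨b1, b2⟩ | ⟨b1, b2⟩
      · exact Or.inl ⟨a1.trans b1.symm, a2.trans b2.symm⟩
      · exact Or.inr ⟨a1.trans b2.symm, a2.trans b1.symm⟩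
      · exact Or.inr ⟨a1.trans b2.symm, a2.trans b1.symm⟩
      · exact Or.inl ⟨a1.trans b1.symm, a2.trans b2.symm⟩
    · exfalso
      obtain ⟨A, P, hAP, hA, hP, hc⟩ := parent z (by omega)
      have h1 := newin hAP hA hP hc
      rw [hXe, hYe, oldX _ h', oldY _ h'] at h1
      exact I.vert z' A P h' hAP hA hP h1
    · exfalso
      obtain ⟨A, P, hAP, hA, hP, hc⟩ := parent z' (by omega)
      have h1 := newin hAP hA hP hc
      rw [← hXe, ← hYe, oldX _ h, oldY _ h] at h1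
      exact I.vert z A P h hAP hA hP h1
    · rw [oldX _ h, oldX _ h'] at hXe
      rw [oldY _ h, oldY _ h'] at hYe
      exact I.inj z z' h h' hXe hYe
  · -- bounds of `X`
    intro z hz
    rcases Nat.lt_or_ge j (lev z) with h | h
    · obtain ⟨A, P, hAP, hA, hP, hc⟩ := parent z (by omega)
      have e1 := childX hc
      obtain ⟨e2, e3⟩ := childidx hc
      have e4 := I.bq A P hAP hA hP
      have e5 := I.bX A hA
      have e6 := I.bX P hP
      omega
    · rw [oldX _ h]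
      exact I.bX z h
  · -- bounds of `Y`
    intro z hz
    rcases Nat.lt_or_ge j (lev z) with h | h
    · obtain ⟨A, P, hAP, hA, hP, hc⟩ := parent z (by omega)
      have e1 := childY hAP hA hP hc
      have e5 := I.bY A hA
      have e6 := I.bY P hP
      constructor <;> linarith
    · rw [oldY _ h]
      exact I.bY z h
  · -- bounds of the cells
    have key : ∀ {A P u v}, G.Adj A P → lev A ≤ j → lev P ≤ j → Kind A P u v →
        (X' u + X' v) / 2 + l' ≤ W := by
      rintro A P u v hAP hA hP ⟨rfl, rfl | hc⟩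
      · rw [oldX _ hA, oldX _ hP]
        have e4 := I.bq u v hAP hA hP
        omega
      · have e1 := childX hc
        obtain ⟨e2, e3⟩ := childidx hc
        have e4 := I.bq u P hAP hA hP
        have e5 := I.bX u hA
        rw [oldX _ hA]
        omega
    intro u v huv hu hv
    obtain ⟨A, P, hAP, hA, hP, h | h⟩ := classify u v huv hu hv
    · exact key hAP hA hP h
    · rw [add_comm (X' u)]
      exact key hAP hA hP h

end Step

end Pool.Agent.Wood
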