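import Mathlib
import Pool.Agent.MP_e7a50c_co.Step

set_option autoImplicit false

/-! The base case, the count of the vertices and the conclusion. -/

namespace Pool.Agent.Wood

variable {n : ℕ} {G : SimpleGraph (Fin n)} {k : ℕ} {p : ℕ → ℕ} {lev : Fin n → ℕ}

/-- The drawing of the triangle. -/
theorem base (D : Data G k p lev) :
    ∃ X Y : Fin n → ℤ, Inv G k lev (ell k p 0) (2 * ell k p 0) 0 X Y := by
  classical
  obtain ⟨a, b, c, hab, hac, hbc, habc⟩ := Set.ncard_eq_three.1 D.three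
  set l : ℤ := ell k p 0 with hl
  have hl1 : 1 ≤ l := ell_pos k p 0
  set H : ℤ := 2 ^ k with hH
  have hH1 : 1 ≤ H := one_le_pow₀ (by norm_num)
  have hH2 : (2 : ℤ) ^ (k + 1) = 2 * H := by rw [hH, pow_succ]; ring
  let X : Fin n → ℤ := fun z => if z = c then l else 0
  let Y : Fin n → ℤ := fun z => if z = a then 0 else if z = b then 2 * H else H
  have Xa : X a = 0 := by simp [X, hac]
  have Xb : X b = 0 := by simp [X, hbc]
  have Xc : X c = l := by simp [X]
  have Ya : Y a = 0 := by simp [Y]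
  have Yb : Y b = 2 * H := by simp [Y, hab.symm]
  have Yc : Y c = H := by simp [Y, hac.symm, hbc.symm]
  have mem : ∀ z, lev z ≤ 0 → z = a ∨ z = b ∨ z = c := by
    intro z hz
    have : z ∈ {v : Fin n | lev v = 0} := by
      change lev z = 0
      omega
    rw [habc] at this
    simpa using this
  have hlr : (1 : ℝ) ≤ l := by exact_mod_cast hl1
  have hHr : (1 : ℝ) ≤ H := by exact_mod_cast hH1
  -- description of the three cells
  have Qab : ∀ x t : ℝ, EC X Y l a b x t → x * H < l * t ∧ x * H < l * (2 * H - t) := by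
    rintro x t ⟨s, h0, h1, h2, h3, h4, h5⟩
    rw [Xa, Xb] at h4 h5
    rw [Ya, Yb] at h2
    norm_num at h2 h4 h5
    constructor
    · rw [h2]; nlinarith
    · rw [h2]; nlinarith
  have Qac : ∀ x t : ℝ, EC X Y l a c x t → t < H ∧ 0 < t ∧ l * t ≤ x * H := by
    rintro x t ⟨s, h0, h1, h2, h3, h4, h5⟩
    rw [Xa, Xc] at h3
    rw [Ya, Yc] at h2
    norm_num at h2 h3
    refine ⟨?_, ?_, ?_⟩
    · rw [h2]; nlinarith
    · rw [h2]; nlinarith
    · rw [h2]; nlinarith
  have Qbc : ∀ x t : ℝ, EC X Y l b c x t → H < t ∧ t < 2 * H ∧ l * (2 * H - t) ≤ x * H := by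
    rintro x t ⟨s, h0, h1, h2, h3, h4, h5⟩
    rw [Xb, Xc] at h3
    rw [Yb, Yc] at h2
    push_cast at h2 h3
    refine ⟨?_, ?_, ?_⟩
    · rw [h2]; nlinarith
    · rw [h2]; nlinarith
    · rw [h2]; nlinarith
  -- edges of the triangle
  have edge : ∀ u v, G.Adj u v → lev u ≤ 0 → lev v ≤ 0 →
      ((u = a ∧ v = b) ∨ (u = b ∧ v = a)) ∨ ((u = a ∧ v = c) ∨ (u = c ∧ v = a)) ∨
      ((u = b ∧ v = c) ∨ (u = c ∧ v = b)) := by
    intro u v huv hu hv
    have hne := huv.ne
    rcases mem u hu with rfl | rfl | rfl <;> rcases mem v hv with rfl | rfl | rfl <;>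
      simp_all
  have cell : ∀ u v, G.Adj u v → lev u ≤ 0 → lev v ≤ 0 → ∀ x t : ℝ, EC X Y l u v x t →
      (((u = a ∧ v = b) ∨ (u = b ∧ v = a)) ∧ x * H < l * t ∧ x * H < l * (2 * H - t)) ∨
      (((u = a ∧ v = c) ∨ (u = c ∧ v = a)) ∧ t < H ∧ 0 < t ∧ l * t ≤ x * H) ∨
      (((u = b ∧ v = c) ∨ (u = c ∧ v = b)) ∧ H < t ∧ t < 2 * H ∧ l * (2 * H - t) ≤ x * H) := by
    intro u v huv hu hv x t h
    rcases edge u v huv hu hv with (⟨rfl, rfl⟩ | ⟨rfl, rfl⟩) | (⟨rfl, rfl⟩ | ⟨rfl, rfl⟩) |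
      (⟨rfl, rfl⟩ | ⟨rfl, rfl⟩)
    · exact Or.inl ⟨Or.inl ⟨rfl, rfl⟩, Qab x t h⟩
    · exact Or.inl ⟨Or.inr ⟨rfl, rfl⟩, Qab x t h.symm⟩
    · exact Or.inr (Or.inl ⟨Or.inl ⟨rfl, rfl⟩, Qac x t h⟩)
    · exact Or.inr (Or.inl ⟨Or.inr ⟨rfl, rfl⟩, Qac x t h.symm⟩)
    · exact Or.inr (Or.inr ⟨Or.inl ⟨rfl, rfl⟩, Qbc x t h⟩)
    · exact Or.inr (Or.inr ⟨Or.inr ⟨rfl, rfl⟩, Qbc x t h.symm⟩)
  have same : ∀ {a b u v u' v' : Fin n}, ((u = a ∧ v = b) ∨ (u = b ∧ v = a)) →
      ((u' = a ∧ v' = b) ∨ (u' = b ∧ v' = a)) → (u = u' ∧ v = v') ∨ (u = v' ∧ v = u') := by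
    rintro a b u v u' v' (⟨rfl, rfl⟩ | ⟨rfl, rfl⟩) (⟨rfl, rfl⟩ | ⟨rfl, rfl⟩)
    · exact Or.inl ⟨rfl, rfl⟩
    · exact Or.inr ⟨rfl, rfl⟩
    · exact Or.inr ⟨rfl, rfl⟩
    · exact Or.inl ⟨rfl, rfl⟩
  refine ⟨X, Y, ?_, ?_, ?_, ?_, ?_, ?_, ?_, ?_⟩
  · intro u v huv hu hv
    rw [Nat.sub_zero, ← hH]
    rcases mem u hu with rfl | rfl | rfl <;> rcases mem v hv with rfl | rfl | rfl <;>
      simp only [Ya, Yb, Yc]
    · simp
    · exact ⟨2, by ring⟩
    · exact ⟨1, by ring⟩
    · exact ⟨-2, by ring⟩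
    · simp
    · exact ⟨-1, by ring⟩
    · exact ⟨-1, by ring⟩
    · exact ⟨1, by ring⟩
    · simp
  · intro u v huv hu hv
    have hne := huv.ne
    rcases mem u hu with rfl | rfl | rfl <;> rcases mem v hv with rfl | rfl | rfl <;>
      simp only [Ya, Yb, Yc] <;> omega
  · intro u v u' v' huv huv' hu hv hu' hv' x t h h'
    rcases cell u v huv hu hv x t h with ⟨e, f⟩ | ⟨e, f⟩ | ⟨e, f⟩ <;>
    rcases cell u' v' huv' hu' hv' x t h' with ⟨e', f'⟩ | ⟨e', f'⟩ | ⟨e', f'⟩
    · exact same e e'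
    · linarith
    · linarith
    · linarith
    · exact same e e'
    · linarith
    · linarith
    · linarith
    · exact same e e'
  · intro z u v hz huv hu hv h
    have h2 := cell u v huv hu hv _ _ h
    rcases mem z hz with rfl | rfl | rfl
    · rw [Xa, Ya] at h2
      rcases h2 with ⟨e, f1, f2⟩ | ⟨e, f1, f2, f3⟩ | ⟨e, f1, f2, f3⟩
      · norm_num at f1
      · norm_num at f2
      · norm_num at f1; linarith
    · rw [Xb, Yb] at h2
      rcases h2 with ⟨e, f1, f2⟩ | ⟨e, f1, f2, f3⟩ | ⟨e, f1, f2, f3⟩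
      · norm_num at f2
      · norm_num at f1; linarith
      · norm_num at f2
    · rw [Xc, Yc] at h2
      rcases h2 with ⟨e, f1, f2⟩ | ⟨e, f1, f2, f3⟩ | ⟨e, f1, f2, f3⟩
      · linarith
      · linarith
      · linarith
  · intro z z' hz hz' h1 h2
    rcases mem z hz with rfl | rfl | rfl <;> rcases mem z' hz' with rfl | rfl | rfl <;>
      simp only [Xa, Xb, Xc, Ya, Yb, Yc] at h1 h2 <;> first | rfl | omega
  · intro z hz
    rcases mem z hz with rfl | rfl | rfl
    · rw [Xa]; omega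
    · rw [Xb]; omega
    · rw [Xc]; omega
  · intro z hz
    rw [hH2]
    rcases mem z hz with rfl | rfl | rfl
    · rw [Ya]; omega
    · rw [Yb]; omega
    · rw [Yc]; omega
  · intro u v huv hu hv
    have hne := huv.ne
    rcases mem u hu with rfl | rfl | rfl <;> rcases mem v hv with rfl | rfl | rfl <;>
      simp only [Xa, Xb, Xc] <;> omega

/-- The drawing of the whole graph. -/
theorem exists_drawing (D : Data G k p lev) :
    ∃ X Y : Fin n → ℤ, Inv G k lev 1 (2 * ell k p 0) k X Y := by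
  have key : ∀ j, j ≤ k → ∃ X Y : Fin n → ℤ,
      Inv G k lev (ell k p j) (2 * ell k p 0) j X Y := by
    intro j
    induction j with
    | zero => intro _; exact base D
    | succ j ih =>
      intro hj
      obtain ⟨X, Y, I⟩ := ih (by omega)
      exact step D (by omega) I
  obtain ⟨X, Y, I⟩ := key k le_rfl
  have e : ell k p k = 1 := by simp [ell]
  rw [e] at I
  exact ⟨X, Y, I⟩

section Count

open Finset

/-- The number of the vertices. -/
theorem count (D : Data G k p lev) : 6 * ell k p 0 ≤ 4 * n := by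
  classical
  obtain ⟨pa, pb, hp⟩ := exists_parents D
  set T : ℕ → Finset (Fin n × Fin n) := fun j =>
    univ.filter (fun e => G.Adj e.1 e.2 ∧ lev e.1 ≤ j ∧ lev e.2 ≤ j) with hT
  set N : ℕ → Finset (Fin n) := fun j => univ.filter (fun x => lev x = j) with hN
  set V : ℕ → Finset (Fin n) := fun j => univ.filter (fun x => lev x ≤ j) with hV
  -- pairs of parents
  have hB : ∀ j, j < k → p (j + 1) * (T j).card = 2 * (N (j + 1)).card := by
    intro j hj
    have h1 : ∑ e ∈ T j, ((N (j + 1)).filter (fun x => G.Adj x e.1 ∧ G.Adj x e.2)).card =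
        p (j + 1) * (T j).card := by
      rw [Finset.sum_const_nat (m := p (j + 1)), mul_comm]
      intro e he
      simp only [hT, mem_filter, mem_univ, true_and] at he
      rw [← D.count (j + 1) (by omega) (by omega) e.1 e.2 he.1 (by omega) (by omega),
        Set.ncard_eq_toFinset_card']
      congr 1
      ext x
      simp [hN]
    have h2 : ∑ x ∈ N (j + 1), ((T j).filter (fun e => G.Adj x e.1 ∧ G.Adj x e.2)).card =
        2 * (N (j + 1)).card := by
      rw [Finset.sum_const_nat (m := 2), mul_comm]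
      intro x hx
      simp only [hN, mem_filter, mem_univ, true_and] at hx
      obtain ⟨g1, g2, g3, g4, g5, g6, g7⟩ := hp x (by omega)
      have e : (T j).filter (fun e => G.Adj x e.1 ∧ G.Adj x e.2) =
          {(pa x, pb x), (pb x, pa x)} := by
        ext ⟨v, w⟩
        simp only [hT, mem_filter, mem_univ, true_and, mem_insert, mem_singleton, Prod.mk.injEq]
        constructor
        · rintro ⟨⟨h1, h2, h3⟩, h4, h5⟩
          rcases g7 v h4 (by omega) with rfl | rfl <;> rcases g7 w h5 (by omega) with rfl | rfl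
          · exact absurd rfl h1.ne
          · exact Or.inl ⟨rfl, rfl⟩
          · exact Or.inr ⟨rfl, rfl⟩
          · exact absurd rfl h1.ne
        · rintro (⟨rfl, rfl⟩ | ⟨rfl, rfl⟩)
          · exact ⟨⟨g2, by omega, by omega⟩, g5, g6⟩
          · exact ⟨⟨g2.symm, by omega, by omega⟩, g6, g5⟩
      rw [e, card_pair]
      intro h
      exact g1 (Prod.mk.inj h).1
    rw [← h1, ← h2]
    simp only [Finset.card_filter]
    exact Finset.sum_comm
  have hA : ∀ j, j < k → (T (j + 1)).card = (T j).card + 4 * (N (j + 1)).card := by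
    intro j hj
    -- new darts
    set P : Finset (Fin n × Fin n) := univ.filter
      (fun e => G.Adj e.1 e.2 ∧ lev e.1 = j + 1 ∧ lev e.2 ≤ j) with hP
    set P' : Finset (Fin n × Fin n) := univ.filter
      (fun e => G.Adj e.1 e.2 ∧ lev e.2 = j + 1 ∧ lev e.1 ≤ j) with hP'
    have hPcard : P.card = 2 * (N (j + 1)).card := by
      have h1 : P = (N (j + 1)).biUnion (fun x => {(x, pa x), (x, pb x)}) := by
        ext ⟨x, v⟩
        simp only [hP, hN, mem_filter, mem_univ, true_and, mem_biUnion, mem_insert,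
          mem_singleton, Prod.mk.injEq]
        constructor
        · rintro ⟨h1, h2, h3⟩
          obtain ⟨g1, g2, g3, g4, g5, g6, g7⟩ := hp x (by omega)
          rcases g7 v h1 (by omega) with h | h
          · exact ⟨x, h2, Or.inl ⟨rfl, h⟩⟩
          · exact ⟨x, h2, Or.inr ⟨rfl, h⟩⟩
        · rintro ⟨y, hy, (⟨rfl, rfl⟩ | ⟨rfl, rfl⟩)⟩
          · obtain ⟨g1, g2, g3, g4, g5, g6, g7⟩ := hp x (by omega)
            exact ⟨g5, hy, by omega⟩
          · obtain ⟨g1, g2, g3, g4, g5, g6, g7⟩ := hp x (by omega)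
            exact ⟨g6, hy, by omega⟩
      rw [h1, Finset.card_biUnion, Finset.sum_const_nat (m := 2), mul_comm]
      · intro x hx
        simp only [hN, mem_filter, mem_univ, true_and] at hx
        obtain ⟨g1, -⟩ := hp x (by omega)
        rw [card_pair]
        intro h
        exact g1 (Prod.mk.inj h).2
      · intro x _ y _ hxy
        change Disjoint _ _
        rw [Finset.disjoint_left]
        rintro ⟨u, v⟩ hu hv
        simp only [mem_insert, mem_singleton, Prod.mk.injEq] at hu hv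
        apply hxy
        rcases hu with ⟨rfl, -⟩ | ⟨rfl, -⟩ <;> rcases hv with ⟨h, -⟩ | ⟨h, -⟩ <;> exact h
    have hP'card : P'.card = P.card := by
      apply Finset.card_bij (fun e _ => (e.2, e.1))
      · rintro ⟨u, v⟩ he
        simp only [hP', hP, mem_filter, mem_univ, true_and] at he ⊢
        exact ⟨he.1.symm, he.2⟩
      · rintro ⟨u, v⟩ _ ⟨u', v'⟩ _ h
        simp only [Prod.mk.injEq] at h ⊢
        exact ⟨h.2, h.1⟩
      · rintro ⟨u, v⟩ he
        simp only [hP, mem_filter, mem_univ, true_and] at he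
        refine ⟨(v, u), ?_, rfl⟩
        simp only [hP', mem_filter, mem_univ, true_and]
        exact ⟨he.1.symm, he.2⟩
    have h3 : T (j + 1) = (T j ∪ P) ∪ P' := by
      ext ⟨u, v⟩
      simp only [hT, hP, hP', mem_filter, mem_univ, true_and, mem_union]
      constructor
      · rintro ⟨h1, h2, h3⟩
        have h4 := D.same u v h1
        by_cases hu : lev u = j + 1
        · by_cases hv : lev v = j + 1
          · have := h4 (hu.trans hv.symm); omega
          · exact Or.inl (Or.inr ⟨h1, hu, by omega⟩)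
        · by_cases hv : lev v = j + 1
          · exact Or.inr ⟨h1, hv, by omega⟩
          · exact Or.inl (Or.inl ⟨h1, by omega, by omega⟩)
      · rintro ((⟨h1, h2, h3⟩ | ⟨h1, h2, h3⟩) | ⟨h1, h2, h3⟩)
        · exact ⟨h1, by omega, by omega⟩
        · exact ⟨h1, by omega, by omega⟩
        · exact ⟨h1, by omega, by omega⟩
    rw [h3, Finset.card_union_of_disjoint, Finset.card_union_of_disjoint, hP'card, hPcard]
    · ring
    · rw [Finset.disjoint_left]
      rintro ⟨u, v⟩ h1 h2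
      simp only [hT, hP, mem_filter, mem_univ, true_and] at h1 h2
      omega
    · rw [Finset.disjoint_left]
      rintro ⟨u, v⟩ h1 h2
      simp only [hT, hP, hP', mem_filter, mem_univ, true_and, mem_union] at h1 h2
      omega
  have hVsucc : ∀ j, (V (j + 1)).card = (V j).card + (N (j + 1)).card := by
    intro j
    rw [← Finset.card_union_of_disjoint]
    · congr 1
      ext x
      simp only [hV, hN, mem_filter, mem_univ, true_and, mem_union]
      omega
    · rw [Finset.disjoint_left]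
      intro x h1 h2
      simp only [hV, hN, mem_filter, mem_univ, true_and] at h1 h2
      omega
  have h0 : (V 0).card = 3 := by
    rw [← D.three, Set.ncard_eq_toFinset_card']
    congr 1
    ext x
    simp [hV]
  have hT0 : (T 0).card = 6 := by
    have h1 : T 0 = (V 0).offDiag := by
      ext ⟨u, v⟩
      simp only [hT, hV, mem_filter, mem_univ, true_and, mem_offDiag]
      constructor
      · rintro ⟨h1, h2, h3⟩
        exact ⟨h2, h3, h1.ne⟩
      · rintro ⟨h1, h2, h3⟩
        exact ⟨D.adj0 u v (by omega) (by omega) h3, h1, h2⟩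
    rw [h1, Finset.offDiag_card, h0]
  have main : ∀ j, j ≤ k → (4 * (V j).card = (T j).card + 6) ∧
      ((T j).card : ℤ) * ell k p j = 6 * ell k p 0 := by
    intro j
    induction j with
    | zero =>
      intro _
      rw [h0, hT0]
      exact ⟨rfl, by norm_num⟩
    | succ j ih =>
      intro hj
      obtain ⟨i1, i2⟩ := ih (by omega)
      have a1 := hA j (by omega)
      have a2 := hB j (by omega)
      have a3 := hVsucc j
      refine ⟨by omega, ?_⟩
      rw [← i2, ell_succ k p (show j < k by omega)]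
      have a4 : ((T (j + 1)).card : ℤ) = (1 + 2 * (p (j + 1) : ℤ)) * (T j).card := by
        have : (T (j + 1)).card = (T j).card + 2 * (p (j + 1) * (T j).card) := by omega
        rw [this]
        push_cast
        ring
      rw [a4]
      ring
  obtain ⟨m1, m2⟩ := main k le_rfl
  have hVk : (V k).card = n := by
    have : V k = univ := by
      ext x
      simp [hV, D.lev_le x]
    rw [this, Finset.card_univ, Fintype.card_fin]
  have e : ell k p k = 1 := by simp [ell]
  rw [e, mul_one] at m2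
  rw [← m2]
  have : (T k).card ≤ 4 * n := by omega
  exact_mod_cast this

theorem pow_le_ell (D : Data G k p lev) : (3 : ℤ) ^ k ≤ ell k p 0 := by
  unfold ell
  have h1 : (3 : ℤ) ^ k = ∏ _m ∈ Finset.Ioc 0 k, (3 : ℤ) := by
    rw [Finset.prod_const, Nat.card_Ioc, Nat.sub_zero]
  rw [h1]
  apply Finset.prod_le_prod
  · intro i _; norm_num
  · intro i hi
    rw [Finset.mem_Ioc] at hi
    have := D.p_pos i (by omega) hi.2
    have : (1 : ℤ) ≤ p i := by exact_mod_cast this
    linarith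

end Count

/-- A point of an edge is an end of it or lies in its cell. -/
lemma segment_cell {X Y : Fin n → ℤ} {u v : Fin n} {z : ℝ × ℝ}
    (hz : z ∈ segment ℝ ((X u : ℝ), (Y u : ℝ)) ((X v : ℝ), (Y v : ℝ))) :
    z = ((X u : ℝ), (Y u : ℝ)) ∨ z = ((X v : ℝ), (Y v : ℝ)) ∨ EC X Y 1 u v z.1 z.2 := by
  obtain ⟨a, s, ha, hs, has, rfl⟩ := hz
  have ha' : a = 1 - s := by linarith
  subst ha'
  rcases eq_or_lt_of_le hs with h | h
  · left
    rw [← h]
    simp
  rcases eq_or_lt_of_le ha with h' | h'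
  · right; left
    have : s = 1 := by linarith
    rw [this]
    simp
  right; right
  have hq : (X u : ℝ) + X v + 1 ≤ 2 * (((X u + X v) / 2 + 1 : ℤ) : ℝ) := by
    have : X u + X v + 1 ≤ 2 * ((X u + X v) / 2 + 1) := by omega
    exact_mod_cast this
  simp only [Prod.smul_mk, Prod.mk_add_mk, smul_eq_mul]
  refine ⟨s, h, by linarith, by ring, by linarith, ?_, ?_⟩
  · nlinarith
  · nlinarith

/-- Every graph of the class has a drawing of small area. -/
theorem exists_grid_drawing (D : Data G k p lev) : ∃ f : Fin n → ℝ × ℝ,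
    (∀ v, ∃ a b : ℤ, f v = ((a : ℝ), (b : ℝ))) ∧ Function.Injective f ∧
    (∀ u v w : Fin n, G.Adj u v → w ≠ u → w ≠ v → f w ∉ segment ℝ (f u) (f v)) ∧
    (∀ u v w x : Fin n, G.Adj u v → G.Adj w x → u ≠ w → u ≠ x → v ≠ w → v ≠ x →
      Disjoint (segment ℝ (f u) (f v)) (segment ℝ (f w) (f x))) ∧
    ∀ v, 0 ≤ (f v).1 ∧ (f v).1 ≤ 0 + 2 * (ell k p 0 : ℝ) ∧ 0 ≤ (f v).2 ∧
      (f v).2 ≤ 0 + 2 ^ (k + 1) := by
  obtain ⟨X, Y, I⟩ := exists_drawing D
  have inj : Function.Injective (fun z : Fin n => ((X z : ℝ), (Y z : ℝ))) := by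
    intro z z' h
    simp only [Prod.mk.injEq] at h
    exact I.inj z z' (D.lev_le z) (D.lev_le z') (by exact_mod_cast h.1) (by exact_mod_cast h.2)
  have onseg : ∀ u v w : Fin n, G.Adj u v → w ≠ u → w ≠ v →
      ((X w : ℝ), (Y w : ℝ)) ∉ segment ℝ ((X u : ℝ), (Y u : ℝ)) ((X v : ℝ), (Y v : ℝ)) := by
    intro u v w huv hu hv h
    rcases segment_cell h with h | h | h
    · exact hu (inj h)
    · exact hv (inj h)
    · exact I.vert w u v (D.lev_le _) huv (D.lev_le _) (D.lev_le _) h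
  refine ⟨fun z => ((X z : ℝ), (Y z : ℝ)), fun v => ⟨X v, Y v, rfl⟩, inj, onseg, ?_, ?_⟩
  · intro u v w x huv hwx huw hux hvw hvx
    rw [Set.disjoint_left]
    intro z hz hz'
    rcases segment_cell hz with h | h | h
    · rw [h] at hz'
      exact onseg w x u hwx huw hux hz'
    · rw [h] at hz'
      exact onseg w x v hwx hvw hvx hz'
    · rcases segment_cell hz' with h' | h' | h'
      · rw [h'] at hz
        exact onseg u v w huv huw.symm hvw.symm hz
      · rw [h'] at hz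
        exact onseg u v x huv hux.symm hvx.symm hz
      · rcases I.disj u v w x huv hwx (D.lev_le _) (D.lev_le _) (D.lev_le _) (D.lev_le _)
          _ _ h h' with ⟨e, -⟩ | ⟨e, -⟩
        · exact huw e
        · exact hux e
  · intro v
    obtain ⟨h1, h2⟩ := I.bX v (D.lev_le v)
    obtain ⟨h3, h4⟩ := I.bY v (D.lev_le v)
    change (0 : ℝ) ≤ X v ∧ (X v : ℝ) ≤ 0 + 2 * (ell k p 0 : ℝ) ∧ (0 : ℝ) ≤ Y v ∧
      (Y v : ℝ) ≤ 0 + 2 ^ (k + 1)
    rw [zero_add, zero_add]
    exact ⟨by exact_mod_cast h1, by exact_mod_cast h2, by exact_mod_cast h3,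
      by exact_mod_cast h4⟩

/-- The area is `o(n²)`. -/
theorem area_small {c : ℝ} (hc : 0 < c) : ∃ N : ℕ, ∀ n : ℕ, N ≤ n → ∀ (G : SimpleGraph (Fin n))
    (k : ℕ) (p : ℕ → ℕ) (lev : Fin n → ℕ), Data G k p lev →
      (2 * (ell k p 0 : ℝ) + 1) * (2 ^ (k + 1) + 1) < c * (n : ℝ) ^ 2 := by
  obtain ⟨K, hK⟩ := exists_pow_lt_of_lt_one (show 0 < c / 6 by positivity)
    (show (2 / 3 : ℝ) < 1 by norm_num)
  obtain ⟨N, hN⟩ := exists_nat_gt (6 * 2 ^ K / c)
  refine ⟨N + 1, ?_⟩
  intro n hn G k p lev D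
  have h1 := count D
  have h2 := pow_le_ell D
  have h3 := ell_pos k p 0
  have h1' : 6 * (ell k p 0 : ℝ) ≤ 4 * n := by exact_mod_cast h1
  have h2' : (3 : ℝ) ^ k ≤ ell k p 0 := by exact_mod_cast h2
  have h3' : (1 : ℝ) ≤ ell k p 0 := by exact_mod_cast h3
  have hn' : (N : ℝ) + 1 ≤ n := by exact_mod_cast hn
  have hn0 : (0 : ℝ) < n := by linarith [show (0 : ℝ) ≤ N from Nat.cast_nonneg N]
  have h4 : (2 * (ell k p 0 : ℝ) + 1) * (2 ^ (k + 1) + 1) ≤ 6 * n * 2 ^ k := by
    have e1 : 2 * (ell k p 0 : ℝ) + 1 ≤ 2 * n := by linarith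
    have e2 : (2 : ℝ) ^ (k + 1) + 1 ≤ 3 * 2 ^ k := by
      have : (1 : ℝ) ≤ 2 ^ k := one_le_pow₀ (by norm_num)
      rw [pow_succ]; linarith
    calc (2 * (ell k p 0 : ℝ) + 1) * (2 ^ (k + 1) + 1) ≤ (2 * n) * (3 * 2 ^ k) := by
          apply mul_le_mul e1 e2 (by positivity) (by positivity)
      _ = 6 * n * 2 ^ k := by ring
  refine lt_of_le_of_lt h4 ?_
  have h5 : 6 * (2 : ℝ) ^ k < c * n := by
    rcases Nat.lt_or_ge k K with hk | hk
    · have e1 : (2 : ℝ) ^ k ≤ 2 ^ K := pow_le_pow_right₀ (by norm_num) hk.le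
      rw [div_lt_iff₀ hc] at hN
      nlinarith
    · have e1 : (2 / 3 : ℝ) ^ k ≤ (2 / 3) ^ K :=
        pow_le_pow_of_le_one (by norm_num) (by norm_num) hk
      have e2 : (2 : ℝ) ^ k = (2 / 3) ^ k * 3 ^ k := by
        rw [← mul_pow]; norm_num
      have e3 : (0 : ℝ) < 3 ^ k := by positivity
      have e4 : (2 / 3 : ℝ) ^ k < c / 6 := lt_of_le_of_lt e1 hK
      have e5 : (3 : ℝ) ^ k ≤ n := by linarith
      rw [e2]
      calc 6 * ((2 / 3 : ℝ) ^ k * 3 ^ k) = 6 * (2 / 3 : ℝ) ^ k * 3 ^ k := by ring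
        _ < c * 3 ^ k := by
          apply mul_lt_mul_of_pos_right _ e3
          linarith
        _ ≤ c * n := mul_le_mul_of_nonneg_left e5 hc.le
  nlinarith

end Pool.Agent.Wood
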